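import Pool.Agent.H146Z.SkNeg
import Pool.Agent.H318Z.MA.Main

set_option autoImplicit false

namespace Pool.Agent.Results.MP_fe3374_gt.Independent

open Pool.Agent.Helper292.ForceCH Pool.Agent.H146Z.Sk

/-- Whether every Sokolov compact space `X` with `p (C_p (X)) = ω` is metrizable is independent
of ZFC: diamond (which is forced by some forcing notion) gives a counterexample, and Martin's axiom
for `ℵ₁` dense sets (which is forced by some forcing notion) gives the positive answer. -/
theorem result :
    (∃ (P : Type) (_ : Preorder P), Nonempty P ∧ ∀ p : P,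
      p ∈ OmegaOnePreserved P ∧ p ∈ DiamondHolds P) ∧
    (Diamond → ∃ (X : Type) (_ : TopologicalSpace X), CompactSpace X ∧ T2Space X ∧ Sokolov X ∧
      CountablePF {g : X → ℝ // Continuous g} ∧ ¬ TopologicalSpace.MetrizableSpace X) ∧
    (∃ (P : Type) (_ : Preorder P), Nonempty P ∧ ∀ p : P,
      p ∈ OmegaOnePreserved P ∧ p ∈ H318Z.MA.MAHolds P Om) ∧
    (H318Z.MA.MartinAxiom.{0, 0} Om → Answer) := by
  refine ⟨?_, negative, H318Z.MA.exists_forcing, positive⟩
  obtain ⟨P, hP, hne, h⟩ := exists_forcing
  exact ⟨P, hP, hne, fun p => ⟨(h p).1, (h p).2.1⟩⟩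

end Pool.Agent.Results.MP_fe3374_gt.Independent
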